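import Mathlib

/-!
# Heffter's difference problems (Peltesohn's solutions)

For every large `n ≡ 1, 3 (mod 6)` we give a function `b` such that the triples
`(t, b t, t + b t)`, `1 ≤ t ≤ k`, use every nonzero difference class modulo `n`
(except `± n/3` when `3 ∣ n`) exactly once.
-/

set_option autoImplicit false
set_option linter.unusedVariables false
set_option linter.unreachableTactic false
set_option linter.unusedTactic false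

namespace Pool.Agent.HX84

/-- the three difference representatives of the triple with index `t` -/
def W (b : ℕ → ℕ) (t : ℕ) (j : Fin 3) : ℕ :=
  if j = 0 then t else if j = 1 then b t else t + b t

/-- `b` solves Heffter's difference problem for `n` with `k` triples. -/
structure Hef (n k : ℕ) (b : ℕ → ℕ) : Prop where
  lo : ∀ t, 1 ≤ t → t ≤ k → k < b t ∧ 2 * b t < n
  bb : ∀ t t', 1 ≤ t → t ≤ k → 1 ≤ t' → t' ≤ k → b t = b t' → t = t'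
  cc : ∀ t t', 1 ≤ t → t ≤ k → 1 ≤ t' → t' ≤ k → t + b t = t' + b t' → t = t'
  ccn : ∀ t t', 1 ≤ t → t ≤ k → 1 ≤ t' → t' ≤ k → (t + b t) + (t' + b t') ≠ n
  bc : ∀ t t', 1 ≤ t → t ≤ k → 1 ≤ t' → t' ≤ k → b t ≠ t' + b t'
  bcn : ∀ t t', 1 ≤ t → t ≤ k → 1 ≤ t' → t' ≤ k → b t + (t' + b t') ≠ n
  acn : ∀ t t', 1 ≤ t → t ≤ k → 1 ≤ t' → t' ≤ k → t' + (t + b t) ≠ n
  h3 : ∀ t, 1 ≤ t → t ≤ k → 3 * t ≠ n ∧ 3 * b t ≠ n ∧ 3 * (t + b t) ≠ n ∧ 3 * (t + b t) ≠ 2 * n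

/-- `n = 18 s + 1` -/
def b1 (s t : ℕ) : ℕ :=
  if t = 3 * s then 3 * s + 1 else
  if t % 3 = 1 then 4 * s + 1 - t / 3 else
  if t % 3 = 2 then 8 * s - t / 3 else 6 * s + 1 - 2 * (t / 3)

/-- `n = 18 s + 7` -/
def b7 (s t : ℕ) : ℕ :=
  if t = 3 * s + 1 then 4 * s + 2 else
  if t % 3 = 1 then 8 * s + 3 - t / 3 else
  if t % 3 = 2 then 6 * s + 1 - 2 * (t / 3) else 4 * s + 2 - t / 3

/-- `n = 18 s + 13` -/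
def b13 (s t : ℕ) : ℕ :=
  if t = 3 * s + 2 then 7 * s + 5 else
  if t % 3 = 1 then 4 * s + 3 - t / 3 else
  if t % 3 = 2 then 6 * s + 3 - 2 * (t / 3) else 8 * s + 6 - t / 3

/-- `n = 18 s + 3` -/
def b3 (s t : ℕ) : ℕ :=
  if t % 3 = 1 then 8 * s + 1 - t / 3 else
  if t % 3 = 2 then 4 * s - t / 3 else 6 * s + 1 - 2 * (t / 3)

/-- `n = 18 s + 9` -/
def b9 (s t : ℕ) : ℕ :=
  if t = 2 then 8 * s + 3 else if t = 3 then 8 * s + 1 else if t = 5 then 8 * s + 2 else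
  if t = 3 * s - 1 then 3 * s + 2 else if t = 3 * s then 7 * s + 3 else
  if t % 3 = 1 then 4 * s + 3 - t / 3 else
  if t % 3 = 2 then 8 * s + 2 - t / 3 else 6 * s + 3 - 2 * (t / 3)

/-- `n = 18 s + 15` -/
def b15 (s t : ℕ) : ℕ :=
  if t % 3 = 1 then 4 * s + 3 - t / 3 else
  if t % 3 = 2 then 8 * s + 6 - t / 3 else 6 * s + 5 - 2 * (t / 3)

theorem cls1 (s t : ℕ) (hs : 1 ≤ s) (h1 : 1 ≤ t) (h2 : t ≤ 3 * s) :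
    (∃ r, t = 3 * r + 1 ∧ r + 1 ≤ s ∧ b1 s t + r = 4 * s + 1) ∨
    (∃ r, t = 3 * r + 2 ∧ r + 1 ≤ s ∧ b1 s t + r = 8 * s) ∨
    (∃ r, t = 3 * r + 3 ∧ r + 2 ≤ s ∧ b1 s t + 2 * r + 1 = 6 * s) ∨
    (t = 3 * s ∧ b1 s t = 3 * s + 1) := by
  unfold b1
  have hm : t % 3 = 0 ∨ t % 3 = 1 ∨ t % 3 = 2 := by omega
  split_ifs
  all_goals first
    | exact Or.inl ⟨t / 3, by omega, by omega, by omega⟩
    | exact Or.inl ⟨t / 3 - 1, by omega, by omega, by omega⟩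
    | exact Or.inr (Or.inl ⟨t / 3, by omega, by omega, by omega⟩)
    | exact Or.inr (Or.inl ⟨t / 3 - 1, by omega, by omega, by omega⟩)
    | exact Or.inr (Or.inr (Or.inl ⟨t / 3, by omega, by omega, by omega⟩))
    | exact Or.inr (Or.inr (Or.inl ⟨t / 3 - 1, by omega, by omega, by omega⟩))
    | exact Or.inr (Or.inr (Or.inr ⟨by omega, by omega⟩))
    | (exfalso; omega)

theorem cls7 (s t : ℕ) (hs : 1 ≤ s) (h1 : 1 ≤ t) (h2 : t ≤ 3 * s + 1) :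
    (∃ r, t = 3 * r + 1 ∧ r + 1 ≤ s ∧ b7 s t + r = 8 * s + 3) ∨
    (∃ r, t = 3 * r + 2 ∧ r + 1 ≤ s ∧ b7 s t + 2 * r = 6 * s + 1) ∨
    (∃ r, t = 3 * r + 3 ∧ r + 1 ≤ s ∧ b7 s t + r = 4 * s + 1) ∨
    (t = 3 * s + 1 ∧ b7 s t = 4 * s + 2) := by
  unfold b7
  have hm : t % 3 = 0 ∨ t % 3 = 1 ∨ t % 3 = 2 := by omega
  split_ifs
  all_goals first
    | exact Or.inl ⟨t / 3, by omega, by omega, by omega⟩
    | exact Or.inl ⟨t / 3 - 1, by omega, by omega, by omega⟩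
    | exact Or.inr (Or.inl ⟨t / 3, by omega, by omega, by omega⟩)
    | exact Or.inr (Or.inl ⟨t / 3 - 1, by omega, by omega, by omega⟩)
    | exact Or.inr (Or.inr (Or.inl ⟨t / 3, by omega, by omega, by omega⟩))
    | exact Or.inr (Or.inr (Or.inl ⟨t / 3 - 1, by omega, by omega, by omega⟩))
    | exact Or.inr (Or.inr (Or.inr ⟨by omega, by omega⟩))
    | (exfalso; omega)

theorem cls13 (s t : ℕ) (hs : 1 ≤ s) (h1 : 1 ≤ t) (h2 : t ≤ 3 * s + 2) :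
    (∃ r, t = 3 * r + 1 ∧ r ≤ s ∧ b13 s t + r = 4 * s + 3) ∨
    (∃ r, t = 3 * r + 2 ∧ r + 1 ≤ s ∧ b13 s t + 2 * r = 6 * s + 3) ∨
    (∃ r, t = 3 * r + 3 ∧ r + 1 ≤ s ∧ b13 s t + r = 8 * s + 5) ∨
    (t = 3 * s + 2 ∧ b13 s t = 7 * s + 5) := by
  unfold b13
  have hm : t % 3 = 0 ∨ t % 3 = 1 ∨ t % 3 = 2 := by omega
  split_ifs
  all_goals first
    | exact Or.inl ⟨t / 3, by omega, by omega, by omega⟩
    | exact Or.inl ⟨t / 3 - 1, by omega, by omega, by omega⟩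
    | exact Or.inr (Or.inl ⟨t / 3, by omega, by omega, by omega⟩)
    | exact Or.inr (Or.inl ⟨t / 3 - 1, by omega, by omega, by omega⟩)
    | exact Or.inr (Or.inr (Or.inl ⟨t / 3, by omega, by omega, by omega⟩))
    | exact Or.inr (Or.inr (Or.inl ⟨t / 3 - 1, by omega, by omega, by omega⟩))
    | exact Or.inr (Or.inr (Or.inr ⟨by omega, by omega⟩))
    | (exfalso; omega)

theorem cls3 (s t : ℕ) (hs : 1 ≤ s) (h1 : 1 ≤ t) (h2 : t ≤ 3 * s) :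
    (∃ r, t = 3 * r + 1 ∧ r + 1 ≤ s ∧ b3 s t + r = 8 * s + 1) ∨
    (∃ r, t = 3 * r + 2 ∧ r + 1 ≤ s ∧ b3 s t + r = 4 * s) ∨
    (∃ r, t = 3 * r + 3 ∧ r + 1 ≤ s ∧ b3 s t + 2 * r + 1 = 6 * s) := by
  unfold b3
  have hm : t % 3 = 0 ∨ t % 3 = 1 ∨ t % 3 = 2 := by omega
  split_ifs
  all_goals first
    | exact Or.inl ⟨t / 3, by omega, by omega, by omega⟩
    | exact Or.inl ⟨t / 3 - 1, by omega, by omega, by omega⟩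
    | exact Or.inr (Or.inl ⟨t / 3, by omega, by omega, by omega⟩)
    | exact Or.inr (Or.inl ⟨t / 3 - 1, by omega, by omega, by omega⟩)
    | exact Or.inr (Or.inr ⟨t / 3, by omega, by omega, by omega⟩)
    | exact Or.inr (Or.inr ⟨t / 3 - 1, by omega, by omega, by omega⟩)
    | (exfalso; omega)

theorem cls15 (s t : ℕ) (hs : 1 ≤ s) (h1 : 1 ≤ t) (h2 : t ≤ 3 * s + 2) :
    (∃ r, t = 3 * r + 1 ∧ r ≤ s ∧ b15 s t + r = 4 * s + 3) ∨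
    (∃ r, t = 3 * r + 2 ∧ r ≤ s ∧ b15 s t + r = 8 * s + 6) ∨
    (∃ r, t = 3 * r + 3 ∧ r + 1 ≤ s ∧ b15 s t + 2 * r = 6 * s + 3) := by
  unfold b15
  have hm : t % 3 = 0 ∨ t % 3 = 1 ∨ t % 3 = 2 := by omega
  split_ifs
  all_goals first
    | exact Or.inl ⟨t / 3, by omega, by omega, by omega⟩
    | exact Or.inl ⟨t / 3 - 1, by omega, by omega, by omega⟩
    | exact Or.inr (Or.inl ⟨t / 3, by omega, by omega, by omega⟩)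
    | exact Or.inr (Or.inl ⟨t / 3 - 1, by omega, by omega, by omega⟩)
    | exact Or.inr (Or.inr ⟨t / 3, by omega, by omega, by omega⟩)
    | exact Or.inr (Or.inr ⟨t / 3 - 1, by omega, by omega, by omega⟩)
    | (exfalso; omega)

theorem cls9 (s t : ℕ) (hs : 4 ≤ s) (h1 : 1 ≤ t) (h2 : t ≤ 3 * s + 1) :
    (t = 2 ∧ b9 s t = 8 * s + 3) ∨
    (t = 3 ∧ b9 s t = 8 * s + 1) ∨
    (t = 5 ∧ b9 s t = 8 * s + 2) ∨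
    (t + 1 = 3 * s ∧ b9 s t = 3 * s + 2) ∨
    (t = 3 * s ∧ b9 s t = 7 * s + 3) ∨
    (∃ r, t = 3 * r + 1 ∧ r ≤ s ∧ b9 s t + r = 4 * s + 3) ∨
    (∃ r, t = 3 * r + 2 ∧ 2 ≤ r ∧ r + 2 ≤ s ∧ b9 s t + r = 8 * s + 2) ∨
    (∃ r, t = 3 * r + 3 ∧ 1 ≤ r ∧ r + 2 ≤ s ∧ b9 s t + 2 * r = 6 * s + 1) := by
  unfold b9
  have hm : t % 3 = 0 ∨ t % 3 = 1 ∨ t % 3 = 2 := by omega
  split_ifs
  all_goals first
    | exact Or.inl ⟨by omega, by omega⟩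
    | exact Or.inr (Or.inl ⟨by omega, by omega⟩)
    | exact Or.inr (Or.inr (Or.inl ⟨by omega, by omega⟩))
    | exact Or.inr (Or.inr (Or.inr (Or.inl ⟨by omega, by omega⟩)))
    | exact Or.inr (Or.inr (Or.inr (Or.inr (Or.inl ⟨by omega, by omega⟩))))
    | exact Or.inr (Or.inr (Or.inr (Or.inr (Or.inr (Or.inl ⟨t / 3, by omega, by omega, by omega⟩)))))
    | exact Or.inr (Or.inr (Or.inr (Or.inr (Or.inr (Or.inl ⟨t / 3 - 1, by omega, by omega, by omega⟩)))))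
    | exact Or.inr (Or.inr (Or.inr (Or.inr (Or.inr (Or.inr (Or.inl ⟨t / 3, by omega, by omega, by omega, by omega⟩))))))
    | exact Or.inr (Or.inr (Or.inr (Or.inr (Or.inr (Or.inr (Or.inl ⟨t / 3 - 1, by omega, by omega, by omega, by omega⟩))))))
    | exact Or.inr (Or.inr (Or.inr (Or.inr (Or.inr (Or.inr (Or.inr ⟨t / 3, by omega, by omega, by omega, by omega⟩))))))
    | exact Or.inr (Or.inr (Or.inr (Or.inr (Or.inr (Or.inr (Or.inr ⟨t / 3 - 1, by omega, by omega, by omega, by omega⟩))))))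
    | (exfalso; omega)

theorem hef1 (s : ℕ) (hs : 1 ≤ s) : Hef (18 * s + 1) (3 * s) (b1 s) where
  lo t h1 h2 := by
    have H := cls1 s t hs h1 h2
    generalize b1 s t = B at H ⊢
    rcases H with ⟨r, e0, e1, e2⟩ | ⟨r, e0, e1, e2⟩ | ⟨r, e0, e1, e2⟩ | ⟨e0, e1⟩ <;> omega
  bb t t' h1 h2 h3 h4 := by
    have H := cls1 s t hs h1 h2
    have H2 := cls1 s t' hs h3 h4
    by_cases e : t = t'
    · subst e
      generalize b1 s t = B at H H2 ⊢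
      rcases H with ⟨r, e0, e1, e2⟩ | ⟨r, e0, e1, e2⟩ | ⟨r, e0, e1, e2⟩ | ⟨e0, e1⟩ <;> omega
    · generalize b1 s t = B at H ⊢
      generalize b1 s t' = B' at H2 ⊢
      rcases H with ⟨r, e0, e1, e2⟩ | ⟨r, e0, e1, e2⟩ | ⟨r, e0, e1, e2⟩ | ⟨e0, e1⟩ <;> rcases H2 with ⟨r2, f0, f1, f2⟩ | ⟨r2, f0, f1, f2⟩ | ⟨r2, f0, f1, f2⟩ | ⟨f0, f1⟩ <;> omega
  cc t t' h1 h2 h3 h4 := by
    have H := cls1 s t hs h1 h2
    have H2 := cls1 s t' hs h3 h4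
    by_cases e : t = t'
    · subst e
      generalize b1 s t = B at H H2 ⊢
      rcases H with ⟨r, e0, e1, e2⟩ | ⟨r, e0, e1, e2⟩ | ⟨r, e0, e1, e2⟩ | ⟨e0, e1⟩ <;> omega
    · generalize b1 s t = B at H ⊢
      generalize b1 s t' = B' at H2 ⊢
      rcases H with ⟨r, e0, e1, e2⟩ | ⟨r, e0, e1, e2⟩ | ⟨r, e0, e1, e2⟩ | ⟨e0, e1⟩ <;> rcases H2 with ⟨r2, f0, f1, f2⟩ | ⟨r2, f0, f1, f2⟩ | ⟨r2, f0, f1, f2⟩ | ⟨f0, f1⟩ <;> omega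
  ccn t t' h1 h2 h3 h4 := by
    have H := cls1 s t hs h1 h2
    have H2 := cls1 s t' hs h3 h4
    by_cases e : t = t'
    · subst e
      generalize b1 s t = B at H H2 ⊢
      rcases H with ⟨r, e0, e1, e2⟩ | ⟨r, e0, e1, e2⟩ | ⟨r, e0, e1, e2⟩ | ⟨e0, e1⟩ <;> omega
    · generalize b1 s t = B at H ⊢
      generalize b1 s t' = B' at H2 ⊢
      rcases H with ⟨r, e0, e1, e2⟩ | ⟨r, e0, e1, e2⟩ | ⟨r, e0, e1, e2⟩ | ⟨e0, e1⟩ <;> rcases H2 with ⟨r2, f0, f1, f2⟩ | ⟨r2, f0, f1, f2⟩ | ⟨r2, f0, f1, f2⟩ | ⟨f0, f1⟩ <;> omega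
  bc t t' h1 h2 h3 h4 := by
    have H := cls1 s t hs h1 h2
    have H2 := cls1 s t' hs h3 h4
    by_cases e : t = t'
    · subst e
      generalize b1 s t = B at H H2 ⊢
      rcases H with ⟨r, e0, e1, e2⟩ | ⟨r, e0, e1, e2⟩ | ⟨r, e0, e1, e2⟩ | ⟨e0, e1⟩ <;> omega
    · generalize b1 s t = B at H ⊢
      generalize b1 s t' = B' at H2 ⊢
      rcases H with ⟨r, e0, e1, e2⟩ | ⟨r, e0, e1, e2⟩ | ⟨r, e0, e1, e2⟩ | ⟨e0, e1⟩ <;> rcases H2 with ⟨r2, f0, f1, f2⟩ | ⟨r2, f0, f1, f2⟩ | ⟨r2, f0, f1, f2⟩ | ⟨f0, f1⟩ <;> omega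
  bcn t t' h1 h2 h3 h4 := by
    have H := cls1 s t hs h1 h2
    have H2 := cls1 s t' hs h3 h4
    by_cases e : t = t'
    · subst e
      generalize b1 s t = B at H H2 ⊢
      rcases H with ⟨r, e0, e1, e2⟩ | ⟨r, e0, e1, e2⟩ | ⟨r, e0, e1, e2⟩ | ⟨e0, e1⟩ <;> omega
    · generalize b1 s t = B at H ⊢
      generalize b1 s t' = B' at H2 ⊢
      rcases H with ⟨r, e0, e1, e2⟩ | ⟨r, e0, e1, e2⟩ | ⟨r, e0, e1, e2⟩ | ⟨e0, e1⟩ <;> rcases H2 with ⟨r2, f0, f1, f2⟩ | ⟨r2, f0, f1, f2⟩ | ⟨r2, f0, f1, f2⟩ | ⟨f0, f1⟩ <;> omega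
  acn t t' h1 h2 h3 h4 := by
    have H := cls1 s t hs h1 h2
    have H2 := cls1 s t' hs h3 h4
    by_cases e : t = t'
    · subst e
      generalize b1 s t = B at H H2 ⊢
      rcases H with ⟨r, e0, e1, e2⟩ | ⟨r, e0, e1, e2⟩ | ⟨r, e0, e1, e2⟩ | ⟨e0, e1⟩ <;> omega
    · generalize b1 s t = B at H ⊢
      generalize b1 s t' = B' at H2 ⊢
      rcases H with ⟨r, e0, e1, e2⟩ | ⟨r, e0, e1, e2⟩ | ⟨r, e0, e1, e2⟩ | ⟨e0, e1⟩ <;> rcases H2 with ⟨r2, f0, f1, f2⟩ | ⟨r2, f0, f1, f2⟩ | ⟨r2, f0, f1, f2⟩ | ⟨f0, f1⟩ <;> omega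
  h3 t h1 h2 := by
    have H := cls1 s t hs h1 h2
    generalize b1 s t = B at H ⊢
    rcases H with ⟨r, e0, e1, e2⟩ | ⟨r, e0, e1, e2⟩ | ⟨r, e0, e1, e2⟩ | ⟨e0, e1⟩ <;> omega

theorem hef7 (s : ℕ) (hs : 1 ≤ s) : Hef (18 * s + 7) (3 * s + 1) (b7 s) where
  lo t h1 h2 := by
    have H := cls7 s t hs h1 h2
    generalize b7 s t = B at H ⊢
    rcases H with ⟨r, e0, e1, e2⟩ | ⟨r, e0, e1, e2⟩ | ⟨r, e0, e1, e2⟩ | ⟨e0, e1⟩ <;> omega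
  bb t t' h1 h2 h3 h4 := by
    have H := cls7 s t hs h1 h2
    have H2 := cls7 s t' hs h3 h4
    by_cases e : t = t'
    · subst e
      generalize b7 s t = B at H H2 ⊢
      rcases H with ⟨r, e0, e1, e2⟩ | ⟨r, e0, e1, e2⟩ | ⟨r, e0, e1, e2⟩ | ⟨e0, e1⟩ <;> omega
    · generalize b7 s t = B at H ⊢
      generalize b7 s t' = B' at H2 ⊢
      rcases H with ⟨r, e0, e1, e2⟩ | ⟨r, e0, e1, e2⟩ | ⟨r, e0, e1, e2⟩ | ⟨e0, e1⟩ <;> rcases H2 with ⟨r2, f0, f1, f2⟩ | ⟨r2, f0, f1, f2⟩ | ⟨r2, f0, f1, f2⟩ | ⟨f0, f1⟩ <;> omega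
  cc t t' h1 h2 h3 h4 := by
    have H := cls7 s t hs h1 h2
    have H2 := cls7 s t' hs h3 h4
    by_cases e : t = t'
    · subst e
      generalize b7 s t = B at H H2 ⊢
      rcases H with ⟨r, e0, e1, e2⟩ | ⟨r, e0, e1, e2⟩ | ⟨r, e0, e1, e2⟩ | ⟨e0, e1⟩ <;> omega
    · generalize b7 s t = B at H ⊢
      generalize b7 s t' = B' at H2 ⊢
      rcases H with ⟨r, e0, e1, e2⟩ | ⟨r, e0, e1, e2⟩ | ⟨r, e0, e1, e2⟩ | ⟨e0, e1⟩ <;> rcases H2 with ⟨r2, f0, f1, f2⟩ | ⟨r2, f0, f1, f2⟩ | ⟨r2, f0, f1, f2⟩ | ⟨f0, f1⟩ <;> omega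
  ccn t t' h1 h2 h3 h4 := by
    have H := cls7 s t hs h1 h2
    have H2 := cls7 s t' hs h3 h4
    by_cases e : t = t'
    · subst e
      generalize b7 s t = B at H H2 ⊢
      rcases H with ⟨r, e0, e1, e2⟩ | ⟨r, e0, e1, e2⟩ | ⟨r, e0, e1, e2⟩ | ⟨e0, e1⟩ <;> omega
    · generalize b7 s t = B at H ⊢
      generalize b7 s t' = B' at H2 ⊢
      rcases H with ⟨r, e0, e1, e2⟩ | ⟨r, e0, e1, e2⟩ | ⟨r, e0, e1, e2⟩ | ⟨e0, e1⟩ <;> rcases H2 with ⟨r2, f0, f1, f2⟩ | ⟨r2, f0, f1, f2⟩ | ⟨r2, f0, f1, f2⟩ | ⟨f0, f1⟩ <;> omega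
  bc t t' h1 h2 h3 h4 := by
    have H := cls7 s t hs h1 h2
    have H2 := cls7 s t' hs h3 h4
    by_cases e : t = t'
    · subst e
      generalize b7 s t = B at H H2 ⊢
      rcases H with ⟨r, e0, e1, e2⟩ | ⟨r, e0, e1, e2⟩ | ⟨r, e0, e1, e2⟩ | ⟨e0, e1⟩ <;> omega
    · generalize b7 s t = B at H ⊢
      generalize b7 s t' = B' at H2 ⊢
      rcases H with ⟨r, e0, e1, e2⟩ | ⟨r, e0, e1, e2⟩ | ⟨r, e0, e1, e2⟩ | ⟨e0, e1⟩ <;> rcases H2 with ⟨r2, f0, f1, f2⟩ | ⟨r2, f0, f1, f2⟩ | ⟨r2, f0, f1, f2⟩ | ⟨f0, f1⟩ <;> omega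
  bcn t t' h1 h2 h3 h4 := by
    have H := cls7 s t hs h1 h2
    have H2 := cls7 s t' hs h3 h4
    by_cases e : t = t'
    · subst e
      generalize b7 s t = B at H H2 ⊢
      rcases H with ⟨r, e0, e1, e2⟩ | ⟨r, e0, e1, e2⟩ | ⟨r, e0, e1, e2⟩ | ⟨e0, e1⟩ <;> omega
    · generalize b7 s t = B at H ⊢
      generalize b7 s t' = B' at H2 ⊢
      rcases H with ⟨r, e0, e1, e2⟩ | ⟨r, e0, e1, e2⟩ | ⟨r, e0, e1, e2⟩ | ⟨e0, e1⟩ <;> rcases H2 with ⟨r2, f0, f1, f2⟩ | ⟨r2, f0, f1, f2⟩ | ⟨r2, f0, f1, f2⟩ | ⟨f0, f1⟩ <;> omega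
  acn t t' h1 h2 h3 h4 := by
    have H := cls7 s t hs h1 h2
    have H2 := cls7 s t' hs h3 h4
    by_cases e : t = t'
    · subst e
      generalize b7 s t = B at H H2 ⊢
      rcases H with ⟨r, e0, e1, e2⟩ | ⟨r, e0, e1, e2⟩ | ⟨r, e0, e1, e2⟩ | ⟨e0, e1⟩ <;> omega
    · generalize b7 s t = B at H ⊢
      generalize b7 s t' = B' at H2 ⊢
      rcases H with ⟨r, e0, e1, e2⟩ | ⟨r, e0, e1, e2⟩ | ⟨r, e0, e1, e2⟩ | ⟨e0, e1⟩ <;> rcases H2 with ⟨r2, f0, f1, f2⟩ | ⟨r2, f0, f1, f2⟩ | ⟨r2, f0, f1, f2⟩ | ⟨f0, f1⟩ <;> omega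
  h3 t h1 h2 := by
    have H := cls7 s t hs h1 h2
    generalize b7 s t = B at H ⊢
    rcases H with ⟨r, e0, e1, e2⟩ | ⟨r, e0, e1, e2⟩ | ⟨r, e0, e1, e2⟩ | ⟨e0, e1⟩ <;> omega

theorem hef13 (s : ℕ) (hs : 1 ≤ s) : Hef (18 * s + 13) (3 * s + 2) (b13 s) where
  lo t h1 h2 := by
    have H := cls13 s t hs h1 h2
    generalize b13 s t = B at H ⊢
    rcases H with ⟨r, e0, e1, e2⟩ | ⟨r, e0, e1, e2⟩ | ⟨r, e0, e1, e2⟩ | ⟨e0, e1⟩ <;> omega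
  bb t t' h1 h2 h3 h4 := by
    have H := cls13 s t hs h1 h2
    have H2 := cls13 s t' hs h3 h4
    by_cases e : t = t'
    · subst e
      generalize b13 s t = B at H H2 ⊢
      rcases H with ⟨r, e0, e1, e2⟩ | ⟨r, e0, e1, e2⟩ | ⟨r, e0, e1, e2⟩ | ⟨e0, e1⟩ <;> omega
    · generalize b13 s t = B at H ⊢
      generalize b13 s t' = B' at H2 ⊢
      rcases H with ⟨r, e0, e1, e2⟩ | ⟨r, e0, e1, e2⟩ | ⟨r, e0, e1, e2⟩ | ⟨e0, e1⟩ <;> rcases H2 with ⟨r2, f0, f1, f2⟩ | ⟨r2, f0, f1, f2⟩ | ⟨r2, f0, f1, f2⟩ | ⟨f0, f1⟩ <;> omega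
  cc t t' h1 h2 h3 h4 := by
    have H := cls13 s t hs h1 h2
    have H2 := cls13 s t' hs h3 h4
    by_cases e : t = t'
    · subst e
      generalize b13 s t = B at H H2 ⊢
      rcases H with ⟨r, e0, e1, e2⟩ | ⟨r, e0, e1, e2⟩ | ⟨r, e0, e1, e2⟩ | ⟨e0, e1⟩ <;> omega
    · generalize b13 s t = B at H ⊢
      generalize b13 s t' = B' at H2 ⊢
      rcases H with ⟨r, e0, e1, e2⟩ | ⟨r, e0, e1, e2⟩ | ⟨r, e0, e1, e2⟩ | ⟨e0, e1⟩ <;> rcases H2 with ⟨r2, f0, f1, f2⟩ | ⟨r2, f0, f1, f2⟩ | ⟨r2, f0, f1, f2⟩ | ⟨f0, f1⟩ <;> omega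
  ccn t t' h1 h2 h3 h4 := by
    have H := cls13 s t hs h1 h2
    have H2 := cls13 s t' hs h3 h4
    by_cases e : t = t'
    · subst e
      generalize b13 s t = B at H H2 ⊢
      rcases H with ⟨r, e0, e1, e2⟩ | ⟨r, e0, e1, e2⟩ | ⟨r, e0, e1, e2⟩ | ⟨e0, e1⟩ <;> omega
    · generalize b13 s t = B at H ⊢
      generalize b13 s t' = B' at H2 ⊢
      rcases H with ⟨r, e0, e1, e2⟩ | ⟨r, e0, e1, e2⟩ | ⟨r, e0, e1, e2⟩ | ⟨e0, e1⟩ <;> rcases H2 with ⟨r2, f0, f1, f2⟩ | ⟨r2, f0, f1, f2⟩ | ⟨r2, f0, f1, f2⟩ | ⟨f0, f1⟩ <;> omega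
  bc t t' h1 h2 h3 h4 := by
    have H := cls13 s t hs h1 h2
    have H2 := cls13 s t' hs h3 h4
    by_cases e : t = t'
    · subst e
      generalize b13 s t = B at H H2 ⊢
      rcases H with ⟨r, e0, e1, e2⟩ | ⟨r, e0, e1, e2⟩ | ⟨r, e0, e1, e2⟩ | ⟨e0, e1⟩ <;> omega
    · generalize b13 s t = B at H ⊢
      generalize b13 s t' = B' at H2 ⊢
      rcases H with ⟨r, e0, e1, e2⟩ | ⟨r, e0, e1, e2⟩ | ⟨r, e0, e1, e2⟩ | ⟨e0, e1⟩ <;> rcases H2 with ⟨r2, f0, f1, f2⟩ | ⟨r2, f0, f1, f2⟩ | ⟨r2, f0, f1, f2⟩ | ⟨f0, f1⟩ <;> omega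
  bcn t t' h1 h2 h3 h4 := by
    have H := cls13 s t hs h1 h2
    have H2 := cls13 s t' hs h3 h4
    by_cases e : t = t'
    · subst e
      generalize b13 s t = B at H H2 ⊢
      rcases H with ⟨r, e0, e1, e2⟩ | ⟨r, e0, e1, e2⟩ | ⟨r, e0, e1, e2⟩ | ⟨e0, e1⟩ <;> omega
    · generalize b13 s t = B at H ⊢
      generalize b13 s t' = B' at H2 ⊢
      rcases H with ⟨r, e0, e1, e2⟩ | ⟨r, e0, e1, e2⟩ | ⟨r, e0, e1, e2⟩ | ⟨e0, e1⟩ <;> rcases H2 with ⟨r2, f0, f1, f2⟩ | ⟨r2, f0, f1, f2⟩ | ⟨r2, f0, f1, f2⟩ | ⟨f0, f1⟩ <;> omega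
  acn t t' h1 h2 h3 h4 := by
    have H := cls13 s t hs h1 h2
    have H2 := cls13 s t' hs h3 h4
    by_cases e : t = t'
    · subst e
      generalize b13 s t = B at H H2 ⊢
      rcases H with ⟨r, e0, e1, e2⟩ | ⟨r, e0, e1, e2⟩ | ⟨r, e0, e1, e2⟩ | ⟨e0, e1⟩ <;> omega
    · generalize b13 s t = B at H ⊢
      generalize b13 s t' = B' at H2 ⊢
      rcases H with ⟨r, e0, e1, e2⟩ | ⟨r, e0, e1, e2⟩ | ⟨r, e0, e1, e2⟩ | ⟨e0, e1⟩ <;> rcases H2 with ⟨r2, f0, f1, f2⟩ | ⟨r2, f0, f1, f2⟩ | ⟨r2, f0, f1, f2⟩ | ⟨f0, f1⟩ <;> omega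
  h3 t h1 h2 := by
    have H := cls13 s t hs h1 h2
    generalize b13 s t = B at H ⊢
    rcases H with ⟨r, e0, e1, e2⟩ | ⟨r, e0, e1, e2⟩ | ⟨r, e0, e1, e2⟩ | ⟨e0, e1⟩ <;> omega

theorem hef3 (s : ℕ) (hs : 1 ≤ s) : Hef (18 * s + 3) (3 * s) (b3 s) where
  lo t h1 h2 := by
    have H := cls3 s t hs h1 h2
    generalize b3 s t = B at H ⊢
    rcases H with ⟨r, e0, e1, e2⟩ | ⟨r, e0, e1, e2⟩ | ⟨r, e0, e1, e2⟩ <;> omega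
  bb t t' h1 h2 h3 h4 := by
    have H := cls3 s t hs h1 h2
    have H2 := cls3 s t' hs h3 h4
    by_cases e : t = t'
    · subst e
      generalize b3 s t = B at H H2 ⊢
      rcases H with ⟨r, e0, e1, e2⟩ | ⟨r, e0, e1, e2⟩ | ⟨r, e0, e1, e2⟩ <;> omega
    · generalize b3 s t = B at H ⊢
      generalize b3 s t' = B' at H2 ⊢
      rcases H with ⟨r, e0, e1, e2⟩ | ⟨r, e0, e1, e2⟩ | ⟨r, e0, e1, e2⟩ <;> rcases H2 with ⟨r2, f0, f1, f2⟩ | ⟨r2, f0, f1, f2⟩ | ⟨r2, f0, f1, f2⟩ <;> omega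
  cc t t' h1 h2 h3 h4 := by
    have H := cls3 s t hs h1 h2
    have H2 := cls3 s t' hs h3 h4
    by_cases e : t = t'
    · subst e
      generalize b3 s t = B at H H2 ⊢
      rcases H with ⟨r, e0, e1, e2⟩ | ⟨r, e0, e1, e2⟩ | ⟨r, e0, e1, e2⟩ <;> omega
    · generalize b3 s t = B at H ⊢
      generalize b3 s t' = B' at H2 ⊢
      rcases H with ⟨r, e0, e1, e2⟩ | ⟨r, e0, e1, e2⟩ | ⟨r, e0, e1, e2⟩ <;> rcases H2 with ⟨r2, f0, f1, f2⟩ | ⟨r2, f0, f1, f2⟩ | ⟨r2, f0, f1, f2⟩ <;> omega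
  ccn t t' h1 h2 h3 h4 := by
    have H := cls3 s t hs h1 h2
    have H2 := cls3 s t' hs h3 h4
    by_cases e : t = t'
    · subst e
      generalize b3 s t = B at H H2 ⊢
      rcases H with ⟨r, e0, e1, e2⟩ | ⟨r, e0, e1, e2⟩ | ⟨r, e0, e1, e2⟩ <;> omega
    · generalize b3 s t = B at H ⊢
      generalize b3 s t' = B' at H2 ⊢
      rcases H with ⟨r, e0, e1, e2⟩ | ⟨r, e0, e1, e2⟩ | ⟨r, e0, e1, e2⟩ <;> rcases H2 with ⟨r2, f0, f1, f2⟩ | ⟨r2, f0, f1, f2⟩ | ⟨r2, f0, f1, f2⟩ <;> omega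
  bc t t' h1 h2 h3 h4 := by
    have H := cls3 s t hs h1 h2
    have H2 := cls3 s t' hs h3 h4
    by_cases e : t = t'
    · subst e
      generalize b3 s t = B at H H2 ⊢
      rcases H with ⟨r, e0, e1, e2⟩ | ⟨r, e0, e1, e2⟩ | ⟨r, e0, e1, e2⟩ <;> omega
    · generalize b3 s t = B at H ⊢
      generalize b3 s t' = B' at H2 ⊢
      rcases H with ⟨r, e0, e1, e2⟩ | ⟨r, e0, e1, e2⟩ | ⟨r, e0, e1, e2⟩ <;> rcases H2 with ⟨r2, f0, f1, f2⟩ | ⟨r2, f0, f1, f2⟩ | ⟨r2, f0, f1, f2⟩ <;> omega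
  bcn t t' h1 h2 h3 h4 := by
    have H := cls3 s t hs h1 h2
    have H2 := cls3 s t' hs h3 h4
    by_cases e : t = t'
    · subst e
      generalize b3 s t = B at H H2 ⊢
      rcases H with ⟨r, e0, e1, e2⟩ | ⟨r, e0, e1, e2⟩ | ⟨r, e0, e1, e2⟩ <;> omega
    · generalize b3 s t = B at H ⊢
      generalize b3 s t' = B' at H2 ⊢
      rcases H with ⟨r, e0, e1, e2⟩ | ⟨r, e0, e1, e2⟩ | ⟨r, e0, e1, e2⟩ <;> rcases H2 with ⟨r2, f0, f1, f2⟩ | ⟨r2, f0, f1, f2⟩ | ⟨r2, f0, f1, f2⟩ <;> omega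
  acn t t' h1 h2 h3 h4 := by
    have H := cls3 s t hs h1 h2
    have H2 := cls3 s t' hs h3 h4
    by_cases e : t = t'
    · subst e
      generalize b3 s t = B at H H2 ⊢
      rcases H with ⟨r, e0, e1, e2⟩ | ⟨r, e0, e1, e2⟩ | ⟨r, e0, e1, e2⟩ <;> omega
    · generalize b3 s t = B at H ⊢
      generalize b3 s t' = B' at H2 ⊢
      rcases H with ⟨r, e0, e1, e2⟩ | ⟨r, e0, e1, e2⟩ | ⟨r, e0, e1, e2⟩ <;> rcases H2 with ⟨r2, f0, f1, f2⟩ | ⟨r2, f0, f1, f2⟩ | ⟨r2, f0, f1, f2⟩ <;> omega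
  h3 t h1 h2 := by
    have H := cls3 s t hs h1 h2
    generalize b3 s t = B at H ⊢
    rcases H with ⟨r, e0, e1, e2⟩ | ⟨r, e0, e1, e2⟩ | ⟨r, e0, e1, e2⟩ <;> omega

theorem hef15 (s : ℕ) (hs : 1 ≤ s) : Hef (18 * s + 15) (3 * s + 2) (b15 s) where
  lo t h1 h2 := by
    have H := cls15 s t hs h1 h2
    generalize b15 s t = B at H ⊢
    rcases H with ⟨r, e0, e1, e2⟩ | ⟨r, e0, e1, e2⟩ | ⟨r, e0, e1, e2⟩ <;> omega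
  bb t t' h1 h2 h3 h4 := by
    have H := cls15 s t hs h1 h2
    have H2 := cls15 s t' hs h3 h4
    by_cases e : t = t'
    · subst e
      generalize b15 s t = B at H H2 ⊢
      rcases H with ⟨r, e0, e1, e2⟩ | ⟨r, e0, e1, e2⟩ | ⟨r, e0, e1, e2⟩ <;> omega
    · generalize b15 s t = B at H ⊢
      generalize b15 s t' = B' at H2 ⊢
      rcases H with ⟨r, e0, e1, e2⟩ | ⟨r, e0, e1, e2⟩ | ⟨r, e0, e1, e2⟩ <;> rcases H2 with ⟨r2, f0, f1, f2⟩ | ⟨r2, f0, f1, f2⟩ | ⟨r2, f0, f1, f2⟩ <;> omega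
  cc t t' h1 h2 h3 h4 := by
    have H := cls15 s t hs h1 h2
    have H2 := cls15 s t' hs h3 h4
    by_cases e : t = t'
    · subst e
      generalize b15 s t = B at H H2 ⊢
      rcases H with ⟨r, e0, e1, e2⟩ | ⟨r, e0, e1, e2⟩ | ⟨r, e0, e1, e2⟩ <;> omega
    · generalize b15 s t = B at H ⊢
      generalize b15 s t' = B' at H2 ⊢
      rcases H with ⟨r, e0, e1, e2⟩ | ⟨r, e0, e1, e2⟩ | ⟨r, e0, e1, e2⟩ <;> rcases H2 with ⟨r2, f0, f1, f2⟩ | ⟨r2, f0, f1, f2⟩ | ⟨r2, f0, f1, f2⟩ <;> omega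
  ccn t t' h1 h2 h3 h4 := by
    have H := cls15 s t hs h1 h2
    have H2 := cls15 s t' hs h3 h4
    by_cases e : t = t'
    · subst e
      generalize b15 s t = B at H H2 ⊢
      rcases H with ⟨r, e0, e1, e2⟩ | ⟨r, e0, e1, e2⟩ | ⟨r, e0, e1, e2⟩ <;> omega
    · generalize b15 s t = B at H ⊢
      generalize b15 s t' = B' at H2 ⊢
      rcases H with ⟨r, e0, e1, e2⟩ | ⟨r, e0, e1, e2⟩ | ⟨r, e0, e1, e2⟩ <;> rcases H2 with ⟨r2, f0, f1, f2⟩ | ⟨r2, f0, f1, f2⟩ | ⟨r2, f0, f1, f2⟩ <;> omega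
  bc t t' h1 h2 h3 h4 := by
    have H := cls15 s t hs h1 h2
    have H2 := cls15 s t' hs h3 h4
    by_cases e : t = t'
    · subst e
      generalize b15 s t = B at H H2 ⊢
      rcases H with ⟨r, e0, e1, e2⟩ | ⟨r, e0, e1, e2⟩ | ⟨r, e0, e1, e2⟩ <;> omega
    · generalize b15 s t = B at H ⊢
      generalize b15 s t' = B' at H2 ⊢
      rcases H with ⟨r, e0, e1, e2⟩ | ⟨r, e0, e1, e2⟩ | ⟨r, e0, e1, e2⟩ <;> rcases H2 with ⟨r2, f0, f1, f2⟩ | ⟨r2, f0, f1, f2⟩ | ⟨r2, f0, f1, f2⟩ <;> omega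
  bcn t t' h1 h2 h3 h4 := by
    have H := cls15 s t hs h1 h2
    have H2 := cls15 s t' hs h3 h4
    by_cases e : t = t'
    · subst e
      generalize b15 s t = B at H H2 ⊢
      rcases H with ⟨r, e0, e1, e2⟩ | ⟨r, e0, e1, e2⟩ | ⟨r, e0, e1, e2⟩ <;> omega
    · generalize b15 s t = B at H ⊢
      generalize b15 s t' = B' at H2 ⊢
      rcases H with ⟨r, e0, e1, e2⟩ | ⟨r, e0, e1, e2⟩ | ⟨r, e0, e1, e2⟩ <;> rcases H2 with ⟨r2, f0, f1, f2⟩ | ⟨r2, f0, f1, f2⟩ | ⟨r2, f0, f1, f2⟩ <;> omega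
  acn t t' h1 h2 h3 h4 := by
    have H := cls15 s t hs h1 h2
    have H2 := cls15 s t' hs h3 h4
    by_cases e : t = t'
    · subst e
      generalize b15 s t = B at H H2 ⊢
      rcases H with ⟨r, e0, e1, e2⟩ | ⟨r, e0, e1, e2⟩ | ⟨r, e0, e1, e2⟩ <;> omega
    · generalize b15 s t = B at H ⊢
      generalize b15 s t' = B' at H2 ⊢
      rcases H with ⟨r, e0, e1, e2⟩ | ⟨r, e0, e1, e2⟩ | ⟨r, e0, e1, e2⟩ <;> rcases H2 with ⟨r2, f0, f1, f2⟩ | ⟨r2, f0, f1, f2⟩ | ⟨r2, f0, f1, f2⟩ <;> omega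
  h3 t h1 h2 := by
    have H := cls15 s t hs h1 h2
    generalize b15 s t = B at H ⊢
    rcases H with ⟨r, e0, e1, e2⟩ | ⟨r, e0, e1, e2⟩ | ⟨r, e0, e1, e2⟩ <;> omega

theorem hef9 (s : ℕ) (hs : 4 ≤ s) : Hef (18 * s + 9) (3 * s + 1) (b9 s) where
  lo t h1 h2 := by
    have H := cls9 s t hs h1 h2
    generalize b9 s t = B at H ⊢
    rcases H with ⟨e0, e1⟩ | ⟨e0, e1⟩ | ⟨e0, e1⟩ | ⟨e0, e1⟩ | ⟨e0, e1⟩ | ⟨r, e0, e1, e2⟩ | ⟨r, e0, e1, e2, e3⟩ | ⟨r, e0, e1, e2, e3⟩ <;> omega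
  bb t t' h1 h2 h3 h4 := by
    have H := cls9 s t hs h1 h2
    have H2 := cls9 s t' hs h3 h4
    by_cases e : t = t'
    · subst e
      generalize b9 s t = B at H H2 ⊢
      rcases H with ⟨e0, e1⟩ | ⟨e0, e1⟩ | ⟨e0, e1⟩ | ⟨e0, e1⟩ | ⟨e0, e1⟩ | ⟨r, e0, e1, e2⟩ | ⟨r, e0, e1, e2, e3⟩ | ⟨r, e0, e1, e2, e3⟩ <;> omega
    · generalize b9 s t = B at H ⊢
      generalize b9 s t' = B' at H2 ⊢
      rcases H with ⟨e0, e1⟩ | ⟨e0, e1⟩ | ⟨e0, e1⟩ | ⟨e0, e1⟩ | ⟨e0, e1⟩ | ⟨r, e0, e1, e2⟩ | ⟨r, e0, e1, e2, e3⟩ | ⟨r, e0, e1, e2, e3⟩ <;> rcases H2 with ⟨f0, f1⟩ | ⟨f0, f1⟩ | ⟨f0, f1⟩ | ⟨f0, f1⟩ | ⟨f0, f1⟩ | ⟨r2, f0, f1, f2⟩ | ⟨r2, f0, f1, f2, f3⟩ | ⟨r2, f0, f1, f2, f3⟩ <;> omega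
  cc t t' h1 h2 h3 h4 := by
    have H := cls9 s t hs h1 h2
    have H2 := cls9 s t' hs h3 h4
    by_cases e : t = t'
    · subst e
      generalize b9 s t = B at H H2 ⊢
      rcases H with ⟨e0, e1⟩ | ⟨e0, e1⟩ | ⟨e0, e1⟩ | ⟨e0, e1⟩ | ⟨e0, e1⟩ | ⟨r, e0, e1, e2⟩ | ⟨r, e0, e1, e2, e3⟩ | ⟨r, e0, e1, e2, e3⟩ <;> omega
    · generalize b9 s t = B at H ⊢
      generalize b9 s t' = B' at H2 ⊢
      rcases H with ⟨e0, e1⟩ | ⟨e0, e1⟩ | ⟨e0, e1⟩ | ⟨e0, e1⟩ | ⟨e0, e1⟩ | ⟨r, e0, e1, e2⟩ | ⟨r, e0, e1, e2, e3⟩ | ⟨r, e0, e1, e2, e3⟩ <;> rcases H2 with ⟨f0, f1⟩ | ⟨f0, f1⟩ | ⟨f0, f1⟩ | ⟨f0, f1⟩ | ⟨f0, f1⟩ | ⟨r2, f0, f1, f2⟩ | ⟨r2, f0, f1, f2, f3⟩ | ⟨r2, f0, f1, f2, f3⟩ <;> omega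
  ccn t t' h1 h2 h3 h4 := by
    have H := cls9 s t hs h1 h2
    have H2 := cls9 s t' hs h3 h4
    by_cases e : t = t'
    · subst e
      generalize b9 s t = B at H H2 ⊢
      rcases H with ⟨e0, e1⟩ | ⟨e0, e1⟩ | ⟨e0, e1⟩ | ⟨e0, e1⟩ | ⟨e0, e1⟩ | ⟨r, e0, e1, e2⟩ | ⟨r, e0, e1, e2, e3⟩ | ⟨r, e0, e1, e2, e3⟩ <;> omega
    · generalize b9 s t = B at H ⊢
      generalize b9 s t' = B' at H2 ⊢
      rcases H with ⟨e0, e1⟩ | ⟨e0, e1⟩ | ⟨e0, e1⟩ | ⟨e0, e1⟩ | ⟨e0, e1⟩ | ⟨r, e0, e1, e2⟩ | ⟨r, e0, e1, e2, e3⟩ | ⟨r, e0, e1, e2, e3⟩ <;> rcases H2 with ⟨f0, f1⟩ | ⟨f0, f1⟩ | ⟨f0, f1⟩ | ⟨f0, f1⟩ | ⟨f0, f1⟩ | ⟨r2, f0, f1, f2⟩ | ⟨r2, f0, f1, f2, f3⟩ | ⟨r2, f0, f1, f2, f3⟩ <;> omega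
  bc t t' h1 h2 h3 h4 := by
    have H := cls9 s t hs h1 h2
    have H2 := cls9 s t' hs h3 h4
    by_cases e : t = t'
    · subst e
      generalize b9 s t = B at H H2 ⊢
      rcases H with ⟨e0, e1⟩ | ⟨e0, e1⟩ | ⟨e0, e1⟩ | ⟨e0, e1⟩ | ⟨e0, e1⟩ | ⟨r, e0, e1, e2⟩ | ⟨r, e0, e1, e2, e3⟩ | ⟨r, e0, e1, e2, e3⟩ <;> omega
    · generalize b9 s t = B at H ⊢
      generalize b9 s t' = B' at H2 ⊢
      rcases H with ⟨e0, e1⟩ | ⟨e0, e1⟩ | ⟨e0, e1⟩ | ⟨e0, e1⟩ | ⟨e0, e1⟩ | ⟨r, e0, e1, e2⟩ | ⟨r, e0, e1, e2, e3⟩ | ⟨r, e0, e1, e2, e3⟩ <;> rcases H2 with ⟨f0, f1⟩ | ⟨f0, f1⟩ | ⟨f0, f1⟩ | ⟨f0, f1⟩ | ⟨f0, f1⟩ | ⟨r2, f0, f1, f2⟩ | ⟨r2, f0, f1, f2, f3⟩ | ⟨r2, f0, f1, f2, f3⟩ <;> omega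
  bcn t t' h1 h2 h3 h4 := by
    have H := cls9 s t hs h1 h2
    have H2 := cls9 s t' hs h3 h4
    by_cases e : t = t'
    · subst e
      generalize b9 s t = B at H H2 ⊢
      rcases H with ⟨e0, e1⟩ | ⟨e0, e1⟩ | ⟨e0, e1⟩ | ⟨e0, e1⟩ | ⟨e0, e1⟩ | ⟨r, e0, e1, e2⟩ | ⟨r, e0, e1, e2, e3⟩ | ⟨r, e0, e1, e2, e3⟩ <;> omega
    · generalize b9 s t = B at H ⊢
      generalize b9 s t' = B' at H2 ⊢
      rcases H with ⟨e0, e1⟩ | ⟨e0, e1⟩ | ⟨e0, e1⟩ | ⟨e0, e1⟩ | ⟨e0, e1⟩ | ⟨r, e0, e1, e2⟩ | ⟨r, e0, e1, e2, e3⟩ | ⟨r, e0, e1, e2, e3⟩ <;> rcases H2 with ⟨f0, f1⟩ | ⟨f0, f1⟩ | ⟨f0, f1⟩ | ⟨f0, f1⟩ | ⟨f0, f1⟩ | ⟨r2, f0, f1, f2⟩ | ⟨r2, f0, f1, f2, f3⟩ | ⟨r2, f0, f1, f2, f3⟩ <;> omega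
  acn t t' h1 h2 h3 h4 := by
    have H := cls9 s t hs h1 h2
    have H2 := cls9 s t' hs h3 h4
    by_cases e : t = t'
    · subst e
      generalize b9 s t = B at H H2 ⊢
      rcases H with ⟨e0, e1⟩ | ⟨e0, e1⟩ | ⟨e0, e1⟩ | ⟨e0, e1⟩ | ⟨e0, e1⟩ | ⟨r, e0, e1, e2⟩ | ⟨r, e0, e1, e2, e3⟩ | ⟨r, e0, e1, e2, e3⟩ <;> omega
    · generalize b9 s t = B at H ⊢
      generalize b9 s t' = B' at H2 ⊢
      rcases H with ⟨e0, e1⟩ | ⟨e0, e1⟩ | ⟨e0, e1⟩ | ⟨e0, e1⟩ | ⟨e0, e1⟩ | ⟨r, e0, e1, e2⟩ | ⟨r, e0, e1, e2, e3⟩ | ⟨r, e0, e1, e2, e3⟩ <;> rcases H2 with ⟨f0, f1⟩ | ⟨f0, f1⟩ | ⟨f0, f1⟩ | ⟨f0, f1⟩ | ⟨f0, f1⟩ | ⟨r2, f0, f1, f2⟩ | ⟨r2, f0, f1, f2, f3⟩ | ⟨r2, f0, f1, f2, f3⟩ <;> omega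
  h3 t h1 h2 := by
    have H := cls9 s t hs h1 h2
    generalize b9 s t = B at H ⊢
    rcases H with ⟨e0, e1⟩ | ⟨e0, e1⟩ | ⟨e0, e1⟩ | ⟨e0, e1⟩ | ⟨e0, e1⟩ | ⟨r, e0, e1, e2⟩ | ⟨r, e0, e1, e2, e3⟩ | ⟨r, e0, e1, e2, e3⟩ <;> omega

/-- Peltesohn: Heffter's difference problems are solvable for all large `n ≡ 1, 3 (mod 6)`. -/
theorem exists_hef (n : ℕ) (hn : 81 ≤ n) (h6 : n % 6 = 1 ∨ n % 6 = 3) :
    ∃ b, Hef n ((n - 1) / 6) b := by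
  obtain ⟨s, c, hc, hsc⟩ : ∃ s c, c < 18 ∧ n = 18 * s + c :=
    ⟨n / 18, n % 18, Nat.mod_lt _ (by norm_num), (Nat.div_add_mod n 18).symm⟩
  have h18 : c = 1 ∨ c = 7 ∨ c = 13 ∨ c = 3 ∨ c = 9 ∨ c = 15 := by omega
  rcases h18 with h | h | h | h | h | h
  · refine ⟨b1 s, ?_⟩
    have := hef1 s (by omega)
    have e : (n - 1) / 6 = 3 * s := by omega
    rw [e, hsc, h]; exact this
  · refine ⟨b7 s, ?_⟩
    have := hef7 s (by omega)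
    have e : (n - 1) / 6 = 3 * s + 1 := by omega
    rw [e, hsc, h]; exact this
  · refine ⟨b13 s, ?_⟩
    have := hef13 s (by omega)
    have e : (n - 1) / 6 = 3 * s + 2 := by omega
    rw [e, hsc, h]; exact this
  · refine ⟨b3 s, ?_⟩
    have := hef3 s (by omega)
    have e : (n - 1) / 6 = 3 * s := by omega
    rw [e, hsc, h]; exact this
  · refine ⟨b9 s, ?_⟩
    have := hef9 s (by omega)
    have e : (n - 1) / 6 = 3 * s + 1 := by omega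
    rw [e, hsc, h]; exact this
  · refine ⟨b15 s, ?_⟩
    have := hef15 s (by omega)
    have e : (n - 1) / 6 = 3 * s + 2 := by omega
    rw [e, hsc, h]; exact this

end Pool.Agent.HX84
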