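import Pool.Agent.HX84.Sys
import Pool.Agent.HX84.Pelt

/-!
# At most `n` cyclic systems in an isomorphism class, and the count
-/

set_option autoImplicit false
set_option linter.unusedSectionVars false

namespace Pool.Agent.HX84

open Finset
open scoped Pointwise

variable {n : ℕ} [NeZero n]

/-- the shift -/
def tau (n : ℕ) : Equiv.Perm (ZMod n) := Equiv.addRight 1

theorem smul_eq_of_iso {B B' : Finset (Finset (ZMod n))} {σ : Equiv.Perm (ZMod n)}
    (h : ∀ b : Finset (ZMod n), b ∈ B ↔ b.map σ.toEmbedding ∈ B') : σ • B = B' := by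
  ext b'
  rw [mem_smul_finset]
  have hm : ∀ b : Finset (ZMod n), b.map σ.toEmbedding = σ • b := by
    intro b
    rw [map_eq_image]
    rfl
  constructor
  · rintro ⟨b, hb, rfl⟩
    rw [← hm]; exact (h b).mp hb
  · intro hb
    refine ⟨σ⁻¹ • b', ?_, by rw [smul_inv_smul]⟩
    rw [h, hm, smul_inv_smul]
    exact hb

theorem tau_smul {B : Finset (Finset (ZMod n))}
    (h : ∀ b ∈ B, b.image (fun x => x + 1) ∈ B) : tau n • B = B := by
  apply eq_of_subset_of_card_le
  · intro b' hb'
    rw [mem_smul_finset] at hb'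
    obtain ⟨b, hb, rfl⟩ := hb'
    exact h b hb
  · rw [card_smul_finset]

theorem perm_eq {φ ψ : Equiv.Perm (ZMod n)} (h1 : φ⁻¹ * tau n * φ = ψ⁻¹ * tau n * ψ)
    (h2 : φ 0 = ψ 0) : φ = ψ := by
  set c := ψ * φ⁻¹ with hc
  have hcomm : c * tau n = tau n * c := by
    have : ψ * (φ⁻¹ * tau n * φ) * φ⁻¹ = ψ * (ψ⁻¹ * tau n * ψ) * φ⁻¹ := by rw [h1]
    calc c * tau n = ψ * (φ⁻¹ * tau n * φ) * φ⁻¹ := by rw [hc]; group
      _ = ψ * (ψ⁻¹ * tau n * ψ) * φ⁻¹ := this
      _ = tau n * c := by rw [hc]; group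
  have hstep : ∀ z, c (z + 1) = c z + 1 := by
    intro z
    have := congrArg (fun f : Equiv.Perm (ZMod n) => f z) hcomm
    simpa [tau] using this
  have hm : ∀ (m : ℕ) (z : ZMod n), c (z + m) = c z + m := by
    intro m
    induction m with
    | zero => intro z; simp
    | succ m ih =>
      intro z
      push_cast
      rw [← add_assoc, hstep, ih, add_assoc]
  have hc0 : c (φ 0) = φ 0 := by
    have e1 : c * φ = ψ := by rw [hc]; group
    have e2 := congrArg (fun f : Equiv.Perm (ZMod n) => f 0) e1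
    simp only [Equiv.Perm.mul_apply] at e2
    rw [e2, h2]
  have hcid : ∀ z, c z = z := by
    intro z
    have e := hm (z - φ 0).val (φ 0)
    rw [ZMod.natCast_zmod_val, hc0] at e
    have e2 : φ 0 + (z - φ 0) = z := by abel
    rwa [e2] at e
  ext z
  have := hcid (φ z)
  rw [hc] at this
  simp at this
  rw [this]

theorem class_bound {E : Type} [DecidableEq E] (B : E → Finset (Finset (ZMod n)))
    (hinj : Function.Injective B) (hcyc : ∀ e, tau n • B e = B e) (B0 : Finset (Finset (ZMod n)))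
    (S : Finset E) (hS : ∀ e ∈ S, ∃ σ : Equiv.Perm (ZMod n), σ • B0 = B e) : S.card ≤ n := by
  classical
  choose! f hf using hS
  let A := MulAction.stabilizer (Equiv.Perm (ZMod n)) B0
  have key : ∀ (e : S) (α : A), (f e * α)⁻¹ * tau n * (f e * α) ∈ A := by
    intro e α
    have hα : (α : Equiv.Perm (ZMod n)) • B0 = B0 := α.2
    rw [MulAction.mem_stabilizer_iff, mul_smul, mul_smul, mul_smul, hα, hf e e.2, hcyc,
      inv_smul_eq_iff, mul_smul, hα, hf e e.2]
  let Φ : S × A → A × ZMod n := fun p =>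
    (⟨(f p.1 * p.2)⁻¹ * tau n * (f p.1 * p.2), key p.1 p.2⟩, (f p.1 * p.2 : Equiv.Perm (ZMod n)) 0)
  have hΦ : Function.Injective Φ := by
    rintro ⟨e, α⟩ ⟨e', α'⟩ h
    have h1 := congrArg (fun q : A × ZMod n => (q.1 : Equiv.Perm (ZMod n))) h
    have h2 := congrArg (fun q : A × ZMod n => q.2) h
    have h3 : f e * α = f e' * α' := perm_eq h1 h2
    have hα : (α : Equiv.Perm (ZMod n)) • B0 = B0 := α.2
    have hα' : (α' : Equiv.Perm (ZMod n)) • B0 = B0 := α'.2
    have h4 : B e = B e' := by
      rw [← hf e e.2, ← hf e' e'.2]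
      nth_rewrite 1 [← hα]
      nth_rewrite 2 [← hα']
      rw [← mul_smul, ← mul_smul, h3]
    have h5 : e = e' := Subtype.ext (hinj h4)
    subst h5
    have h6 : α = α' := Subtype.ext (mul_left_cancel h3)
    rw [h6]
  have hcard := Fintype.card_le_of_injective Φ hΦ
  rw [Fintype.card_prod, Fintype.card_prod, ZMod.card, Fintype.card_coe, mul_comm] at hcard
  exact Nat.le_of_mul_le_mul_left hcard Fintype.card_pos

/-! ### difference triples give a `Good` family -/

section good

variable {k : ℕ} {b : ℕ → ℕ}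

def X (n : ℕ) (k : ℕ) (t : Fin k) : ZMod n := ((t.val + 1 : ℕ) : ZMod n)
def Y (n : ℕ) (k : ℕ) (b : ℕ → ℕ) (t : Fin k) : ZMod n := ((b (t.val + 1) : ℕ) : ZMod n)

/-- natural number representing `Ds` -/
def V (n : ℕ) (b : ℕ → ℕ) (i : Fin k × Fin 3 × Bool) : ℕ :=
  if i.2.2 then W b (i.1.val + 1) i.2.1 else n - W b (i.1.val + 1) i.2.1

theorem W_bound (H : Hef n k b) (t : Fin k) (j : Fin 3) :
    0 < W b (t.val + 1) j ∧ W b (t.val + 1) j < n := by
  have ht := t.2
  have h1 := H.lo (t.val + 1) (by omega) (by omega)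
  fin_cases j <;> simp [W] <;> omega

theorem Ds_eq (H : Hef n k b) (i : Fin k × Fin 3 × Bool) :
    Ds (X n k) (Y n k b) i = ((V n b i : ℕ) : ZMod n) := by
  obtain ⟨t, j, s⟩ := i
  have hb := W_bound H t j
  have e : (if j = 0 then X n k t else if j = 1 then Y n k b t else X n k t + Y n k b t)
      = ((W b (t.val + 1) j : ℕ) : ZMod n) := by
    fin_cases j <;> simp [W, X, Y]
  cases s
  · simp only [Ds, V]
    rw [e, if_neg (by simp), if_neg (by simp), Nat.cast_sub hb.2.le]
    simp
  · simp only [Ds, V]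
    rw [e]
    simp

theorem V_bound (H : Hef n k b) (i : Fin k × Fin 3 × Bool) :
    0 < V n b i ∧ V n b i < n := by
  obtain ⟨t, j, s⟩ := i
  have hb := W_bound H t j
  cases s <;> simp [V] <;> omega

theorem W_inj (H : Hef n k b) (t t' : Fin k) (j j' : Fin 3)
    (h : W b (t.val + 1) j = W b (t'.val + 1) j') : t = t' ∧ j = j' := by
  have ht := t.2
  have ht' := t'.2
  have h1 := H.lo (t.val + 1) (by omega) (by omega)
  have h1' := H.lo (t'.val + 1) (by omega) (by omega)
  have h2 := H.bb (t.val + 1) (t'.val + 1) (by omega) (by omega) (by omega) (by omega)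
  have h3 := H.cc (t.val + 1) (t'.val + 1) (by omega) (by omega) (by omega) (by omega)
  have h4 := H.bc (t.val + 1) (t'.val + 1) (by omega) (by omega) (by omega) (by omega)
  have h5 := H.bc (t'.val + 1) (t.val + 1) (by omega) (by omega) (by omega) (by omega)
  have h6 : (t : ℕ) = t' → t = t' := Fin.ext
  fin_cases j <;> fin_cases j' <;> simp [W] at h ⊢
  · exact h6 h
  · omega
  · omega
  · omega
  · exact h6 (by have := h2 h; omega)
  · omega
  · omega
  · omega
  · exact h6 (by have := h3 h; omega)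

theorem W_sum (H : Hef n k b) (t t' : Fin k) (j j' : Fin 3) :
    W b (t.val + 1) j + W b (t'.val + 1) j' ≠ n := by
  have ht := t.2
  have ht' := t'.2
  have h1 := H.lo (t.val + 1) (by omega) (by omega)
  have h1' := H.lo (t'.val + 1) (by omega) (by omega)
  have h2 := H.ccn (t.val + 1) (t'.val + 1) (by omega) (by omega) (by omega) (by omega)
  have h3 := H.bcn (t.val + 1) (t'.val + 1) (by omega) (by omega) (by omega) (by omega)
  have h4 := H.bcn (t'.val + 1) (t.val + 1) (by omega) (by omega) (by omega) (by omega)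
  have h5 := H.acn (t.val + 1) (t'.val + 1) (by omega) (by omega) (by omega) (by omega)
  have h6 := H.acn (t'.val + 1) (t.val + 1) (by omega) (by omega) (by omega) (by omega)
  fin_cases j <;> fin_cases j' <;> simp [W] <;> omega

theorem V_inj (H : Hef n k b) : Function.Injective (V n b : Fin k × Fin 3 × Bool → ℕ) := by
  rintro ⟨t, j, s⟩ ⟨t', j', s'⟩ h
  have hb := W_bound H t j
  have hb' := W_bound H t' j'
  have hs := W_sum H t t' j j'
  have hi := W_inj H t t' j j'
  cases s <;> cases s' <;> simp [V] at h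
  · obtain ⟨h1, h2⟩ := hi (by omega)
    rw [h1, h2]
  · omega
  · omega
  · obtain ⟨h1, h2⟩ := hi h
    rw [h1, h2]

theorem V_h3 (H : Hef n k b) (i : Fin k × Fin 3 × Bool) :
    3 * V n b i ≠ n ∧ 3 * V n b i ≠ 2 * n := by
  obtain ⟨t, j, s⟩ := i
  have ht := t.2
  have h1 := H.lo (t.val + 1) (by omega) (by omega)
  have h2 := H.h3 (t.val + 1) (by omega) (by omega)
  have hb := W_bound H t j
  cases s <;> fin_cases j <;> simp [V, W] at hb ⊢ <;> omega

theorem cast_inj' {a c : ℕ} (ha : a < n) (hc : c < n) (h : (a : ZMod n) = (c : ZMod n)) : a = c := by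
  rw [ZMod.natCast_eq_natCast_iff'] at h
  rwa [Nat.mod_eq_of_lt ha, Nat.mod_eq_of_lt hc] at h

theorem good_of_hef (H : Hef n k b) (hk : k = (n - 1) / 6) (hn : 9 < n)
    (h6 : n % 6 = 1 ∨ n % 6 = 3) :
    Good (X n k) (Y n k b) ((n / 3 : ℕ) : ZMod n) (decide (n % 3 = 0)) := by
  classical
  have hinj : Function.Injective (Ds (X n k) (Y n k b)) := by
    intro i j hij
    rw [Ds_eq H, Ds_eq H] at hij
    exact V_inj H (cast_inj' (V_bound H i).2 (V_bound H j).2 hij)
  have hne0 : ∀ i, Ds (X n k) (Y n k b) i ≠ 0 := by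
    intro i h
    rw [Ds_eq H, ← Nat.cast_zero] at h
    have := cast_inj' (V_bound H i).2 (by omega) h
    have := (V_bound H i).1
    omega
  have hneg : n % 3 = 0 → -((n / 3 : ℕ) : ZMod n) = ((2 * (n / 3) : ℕ) : ZMod n) := by
    intro h3
    rw [neg_eq_iff_add_eq_zero, ← Nat.cast_add]
    have : n / 3 + 2 * (n / 3) = n := by omega
    rw [this, ZMod.natCast_self]
  have hneh : n % 3 = 0 → ∀ i, Ds (X n k) (Y n k b) i ≠ ((n / 3 : ℕ) : ZMod n) ∧
      Ds (X n k) (Y n k b) i ≠ -((n / 3 : ℕ) : ZMod n) := by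
    intro h3 i
    have hv := V_h3 H i
    have hb := V_bound H i
    constructor
    · intro h
      rw [Ds_eq H] at h
      have := cast_inj' hb.2 (by omega) h
      omega
    · intro h
      rw [Ds_eq H, hneg h3] at h
      have := cast_inj' hb.2 (by omega) h
      omega
  have hh3 : n % 3 = 0 → ((n / 3 : ℕ) : ZMod n) ≠ 0 ∧
      ((n / 3 : ℕ) : ZMod n) + ((n / 3 : ℕ) : ZMod n) + ((n / 3 : ℕ) : ZMod n) = 0 := by
    intro h3
    constructor
    · intro h
      rw [← Nat.cast_zero] at h
      have := cast_inj' (by omega) (by omega) h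
      omega
    · rw [← Nat.cast_add, ← Nat.cast_add]
      have : n / 3 + n / 3 + n / 3 = n := by omega
      rw [this, ZMod.natCast_self]
  refine ⟨hinj, hne0, ?_, ?_, ?_⟩
  · intro hc
    exact hneh (by simpa using hc)
  · -- surjectivity by counting
    have hcardI : (univ.image (Ds (X n k) (Y n k b))).card = 6 * k := by
      rw [card_image_of_injective _ hinj, card_univ]
      simp [Fintype.card_prod]
      ring
    rcases Nat.lt_or_ge 0 (n % 3) with h3 | h3
    · intro d hd _
      have hsub : univ.image (Ds (X n k) (Y n k b)) ⊆ univ.erase 0 := by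
        intro z hz
        rw [mem_image] at hz
        obtain ⟨i, -, rfl⟩ := hz
        exact mem_erase.mpr ⟨hne0 i, mem_univ _⟩
      have heq := eq_of_subset_of_card_le hsub (by
        rw [hcardI, card_erase_of_mem (mem_univ _), card_univ, ZMod.card]; omega)
      have : d ∈ univ.image (Ds (X n k) (Y n k b)) := by
        rw [heq]; exact mem_erase.mpr ⟨hd, mem_univ _⟩
      rw [mem_image] at this
      obtain ⟨i, -, hi⟩ := this
      exact ⟨i, hi⟩
    · have h3' : n % 3 = 0 := by omega
      intro d hd hd2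
      have hd3 := hd2 (by simpa using h3')
      have hsub : univ.image (Ds (X n k) (Y n k b)) ⊆
          ((univ.erase 0).erase ((n / 3 : ℕ) : ZMod n)).erase (-((n / 3 : ℕ) : ZMod n)) := by
        intro z hz
        rw [mem_image] at hz
        obtain ⟨i, -, rfl⟩ := hz
        have := hneh h3' i
        exact mem_erase.mpr ⟨this.2, mem_erase.mpr ⟨this.1, mem_erase.mpr ⟨hne0 i, mem_univ _⟩⟩⟩
      have m1 : ((n / 3 : ℕ) : ZMod n) ∈ (univ.erase (0 : ZMod n)) :=
        mem_erase.mpr ⟨(hh3 h3').1, mem_univ _⟩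
      have m2 : -((n / 3 : ℕ) : ZMod n) ∈ (univ.erase (0 : ZMod n)).erase ((n / 3 : ℕ) : ZMod n) := by
        refine mem_erase.mpr ⟨?_, mem_erase.mpr ⟨neg_ne_zero.mpr (hh3 h3').1, mem_univ _⟩⟩
        rw [hneg h3']
        intro h
        have := cast_inj' (by omega) (by omega) h
        omega
      have heq := eq_of_subset_of_card_le hsub (by
        rw [hcardI, card_erase_of_mem m2, card_erase_of_mem m1, card_erase_of_mem (mem_univ _),
          card_univ, ZMod.card]; omega)
      have : d ∈ univ.image (Ds (X n k) (Y n k b)) := by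
        rw [heq]
        exact mem_erase.mpr ⟨hd3.2, mem_erase.mpr ⟨hd3.1, mem_erase.mpr ⟨hd, mem_univ _⟩⟩⟩
      rw [mem_image] at this
      obtain ⟨i, -, hi⟩ := this
      exact ⟨i, hi⟩
  · intro hc
    exact hh3 (by simpa using hc)

end good

theorem pow_bound (k : ℕ) (hk : 4 ≤ k) : k * k ≤ 2 ^ k := by
  induction k, hk using Nat.le_induction with
  | base => norm_num
  | succ k hk ih =>
    rw [pow_succ]
    nlinarith

/-- The main theorem. -/
theorem main (M : ℕ) : ∃ N : ℕ, ∀ n : ℕ, N ≤ n → (n % 6 = 1 ∨ n % 6 = 3) →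
      ∃ B : Fin M → Finset (Finset (ZMod n)),
        (∀ i, (∀ b ∈ B i, b.card = 3) ∧
          (∀ x y : ZMod n, x ≠ y → ∃! b : Finset (ZMod n), b ∈ B i ∧ x ∈ b ∧ y ∈ b) ∧
          (∀ b ∈ B i, b.image (fun x => x + 1) ∈ B i)) ∧
        (∀ i j, i ≠ j → ¬ ∃ σ : Equiv.Perm (ZMod n),
          ∀ b : Finset (ZMod n), b ∈ B i ↔ b.map σ.toEmbedding ∈ B j) := by
  classical
  refine ⟨60 * M + 100, fun n hn h6 => ?_⟩
  have : NeZero n := ⟨by omega⟩
  obtain ⟨b, hb⟩ := exists_hef n (by omega) h6
  set k := (n - 1) / 6 with hk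
  have good := good_of_hef hb hk (by omega) h6
  set h : ZMod n := ((n / 3 : ℕ) : ZMod n)
  set c : Bool := decide (n % 3 = 0)
  let S : (Fin k → Bool) → Finset (Finset (ZMod n)) :=
    fun e => sys (sx (X n k) (Y n k b) e) (sy (X n k) (Y n k b) e) h c
  have hSinj : Function.Injective S := sys_inj good
  have hScyc : ∀ e, tau n • S e = S e := fun e => tau_smul (sys_shift 1)
  let st : Setoid (Fin k → Bool) :=
    { r := fun e e' => ∃ σ : Equiv.Perm (ZMod n), σ • S e = S e'
      iseqv :=
        { refl := fun e => ⟨1, one_smul _ _⟩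
          symm := by
            rintro e e' ⟨σ, hσ⟩
            exact ⟨σ⁻¹, by rw [← hσ, inv_smul_smul]⟩
          trans := by
            rintro e e' e'' ⟨σ, hσ⟩ ⟨σ', hσ'⟩
            exact ⟨σ' * σ, by rw [mul_smul, hσ, hσ']⟩ } }
  have hfib : ∀ q ∈ (univ : Finset (Fin k → Bool)).image (fun e => (Quotient.mk st e)),
      (univ.filter (fun e : Fin k → Bool => Quotient.mk st e = q)).card ≤ n := by
    intro q _
    apply class_bound S hSinj hScyc (S q.out)
    intro e he
    rw [mem_filter] at he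
    have h1 : Quotient.mk st q.out = Quotient.mk st e := by rw [he.2]; exact Quotient.out_eq q
    exact Quotient.exact h1
  have hcount := card_le_mul_card_image (univ : Finset (Fin k → Bool)) n hfib
  have hq : ((univ : Finset (Fin k → Bool)).image (fun e => (Quotient.mk st e))).card ≤
      Fintype.card (Quotient st) := card_le_univ _
  have hpow : (univ : Finset (Fin k → Bool)).card = 2 ^ k := by
    rw [card_univ, Fintype.card_fun, Fintype.card_bool, Fintype.card_fin]
  rw [hpow] at hcount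
  have hk2 := pow_bound k (by omega)
  have hMq : M ≤ Fintype.card (Quotient st) := by
    by_contra hlt
    rw [not_le] at hlt
    have h1 : n * M ≤ k * k := by
      have h2 : n ≤ 6 * k + 6 := by omega
      have h3 : 10 * M + 10 ≤ k := by omega
      nlinarith
    have h4 : 2 ^ k ≤ n * (Fintype.card (Quotient st)) := hcount.trans (Nat.mul_le_mul_left _ hq)
    have h5 : n * (Fintype.card (Quotient st)) < n * M := Nat.mul_lt_mul_of_pos_left hlt (by omega)
    omega
  obtain ⟨emb⟩ : Nonempty (Fin M ↪ Quotient st) := by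
    rw [Function.Embedding.nonempty_iff_card_le, Fintype.card_fin]
    exact hMq
  refine ⟨fun i => S (emb i).out, fun i => ⟨?_, ?_, ?_⟩, ?_⟩
  · exact sys_card (good_swap good _)
  · exact fun x y hxy => sys_unique (good_swap good _) x y hxy
  · exact sys_shift 1
  · rintro i j hij ⟨σ, hσ⟩
    apply hij
    apply emb.injective
    have h1 : σ • S (emb i).out = S (emb j).out := smul_eq_of_iso hσ
    have h2 : Quotient.mk st (emb i).out = Quotient.mk st (emb j).out := Quotient.sound ⟨σ, h1⟩
    rw [Quotient.out_eq, Quotient.out_eq] at h2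
    exact h2

end Pool.Agent.HX84
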