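import Mathlib

/-!
# Cyclic Steiner triple systems from difference triples
-/

set_option autoImplicit false
set_option linter.unusedSectionVars false
set_option linter.unusedSimpArgs false

namespace Pool.Agent.HX84

open Finset

variable {G : Type} [AddCommGroup G] [DecidableEq G] [Fintype G]

/-- block `{g, g+x, g+x+y}` -/
def blk (x y g : G) : Finset G := {g, g + x, g + (x + y)}

/-- short block `{g, g+h, g-h}` -/
def sblk (h g : G) : Finset G := {g, g + h, g - h}

/-- the signed difference attached to an index -/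
def Ds {k : ℕ} (x y : Fin k → G) (i : Fin k × Fin 3 × Bool) : G :=
  let d := if i.2.1 = 0 then x i.1 else if i.2.1 = 1 then y i.1 else x i.1 + y i.1
  if i.2.2 then d else -d

/-- position of the base point of the block relative to the first point of the pair -/
def off {k : ℕ} (x y : Fin k → G) (i : Fin k × Fin 3 × Bool) : G :=
  if i.2.2 then (if i.2.1 = 0 then 0 else if i.2.1 = 1 then - x i.1 else 0)
  else (if i.2.1 = 0 then - x i.1 else -(x i.1 + y i.1))

theorem mem_blk {x y g p : G} : p ∈ blk x y g ↔ p = g ∨ p = g + x ∨ p = g + (x + y) := by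
  simp [blk]

theorem mem_sblk {h g p : G} : p ∈ sblk h g ↔ p = g ∨ p = g + h ∨ p = g - h := by
  simp [sblk]

/-- Properties of a family of difference triples; `H` is the set of short differences. -/
structure Good {k : ℕ} (x y : Fin k → G) (h : G) (c : Bool) : Prop where
  inj : Function.Injective (Ds x y)
  ne0 : ∀ i, Ds x y i ≠ 0
  neh : c = true → ∀ i, Ds x y i ≠ h ∧ Ds x y i ≠ -h
  surj : ∀ d : G, d ≠ 0 → (c = true → d ≠ h ∧ d ≠ -h) → ∃ i, Ds x y i = d
  h3 : c = true → h ≠ 0 ∧ h + h + h = 0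

theorem pair_of_mem {k : ℕ} {x y : Fin k → G} {t : Fin k} {g p q : G}
    (hp : p ∈ blk (x t) (y t) g) (hq : q ∈ blk (x t) (y t) g) (hpq : p ≠ q) :
    ∃ j s, q - p = Ds x y (t, j, s) ∧ g = p + off x y (t, j, s) := by
  rw [mem_blk] at hp hq
  rcases hp with rfl | rfl | rfl <;> rcases hq with rfl | rfl | rfl
  · exact absurd rfl hpq
  · exact ⟨0, true, by simp [Ds], by simp [off]⟩
  · exact ⟨2, true, by simp [Ds], by simp [off]⟩
  · exact ⟨0, false, by simp [Ds], by simp [off]⟩
  · exact absurd rfl hpq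
  · exact ⟨1, true, by simp [Ds], by simp [off]⟩
  · exact ⟨2, false, by simp [Ds], by simp [off]; abel⟩
  · exact ⟨1, false, by simp [Ds], by simp [off]; abel⟩
  · exact absurd rfl hpq

theorem mem_of_pair {k : ℕ} {x y : Fin k → G} {i : Fin k × Fin 3 × Bool} {p q : G}
    (h : q - p = Ds x y i) :
    p ∈ blk (x i.1) (y i.1) (p + off x y i) ∧ q ∈ blk (x i.1) (y i.1) (p + off x y i) := by
  obtain ⟨t, j, s⟩ := i
  have hq : q = p + Ds x y (t, j, s) := by rw [← h]; abel
  subst hq
  simp only [mem_blk]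
  fin_cases j <;> cases s <;> simp [Ds, off]
  · exact ⟨Or.inr (Or.inr (by abel)), Or.inr (Or.inl (by abel))⟩
  · right; right; abel

theorem sblk_eq {h g p : G} (h3 : h + h + h = 0) (hp : p ∈ sblk h g) : sblk h g = sblk h p := by
  rw [mem_sblk] at hp
  have e1 : h + h = -h := by rw [eq_neg_iff_add_eq_zero]; exact h3
  rcases hp with rfl | rfl | rfl
  · rfl
  · ext z
    simp only [mem_sblk]
    have e2 : g + h + h = g - h := by rw [add_assoc, e1, sub_eq_add_neg]
    rw [e2, add_sub_cancel_right]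
    tauto
  · ext z
    simp only [mem_sblk]
    have e2 : g - h - h = g + h := by
      rw [sub_sub, e1, sub_neg_eq_add]
    rw [e2, sub_add_cancel]
    tauto

theorem sblk_diff {h g p q : G} (h3 : h + h + h = 0) (hp : p ∈ sblk h g) (hq : q ∈ sblk h g)
    (hpq : p ≠ q) : q - p = h ∨ q - p = -h := by
  rw [sblk_eq h3 hp, mem_sblk] at hq
  rcases hq with rfl | rfl | rfl
  · exact absurd rfl hpq
  · left; abel
  · right; abel

/-- the system of triples -/
def sys {k : ℕ} (x y : Fin k → G) (h : G) (c : Bool) : Finset (Finset G) :=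
  (univ : Finset (Fin k × G)).image (fun i => blk (x i.1) (y i.1) i.2) ∪
    (if c then univ.image (sblk h) else ∅)

theorem mem_sys {k : ℕ} {x y : Fin k → G} {h : G} {c : Bool} {b : Finset G} :
    b ∈ sys x y h c ↔ (∃ t g, b = blk (x t) (y t) g) ∨ (c = true ∧ ∃ g, b = sblk h g) := by
  unfold sys
  rw [mem_union, mem_image]
  constructor
  · rintro (⟨⟨t, g⟩, -, rfl⟩ | hb)
    · exact Or.inl ⟨t, g, rfl⟩
    · right
      split_ifs at hb with hc
      · rw [mem_image] at hb
        obtain ⟨g, -, rfl⟩ := hb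
        exact ⟨hc, g, rfl⟩
      · simp at hb
  · rintro (⟨t, g, rfl⟩ | ⟨hc, g, rfl⟩)
    · exact Or.inl ⟨(t, g), mem_univ _, rfl⟩
    · right
      rw [if_pos hc]
      exact mem_image_of_mem _ (mem_univ _)

theorem card_blk {k : ℕ} {x y : Fin k → G} {h : G} {c : Bool} (H : Good x y h c) (t : Fin k)
    (g : G) : (blk (x t) (y t) g).card = 3 := by
  have h0 : x t ≠ 0 := by simpa [Ds] using H.ne0 (t, 0, true)
  have h1 : y t ≠ 0 := by simpa [Ds] using H.ne0 (t, 1, true)
  have h2 : x t + y t ≠ 0 := by simpa [Ds] using H.ne0 (t, 2, true)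
  unfold blk
  rw [card_eq_three]
  refine ⟨_, _, _, ?_, ?_, ?_, rfl⟩
  · intro e; apply h0; simpa using e.symm
  · intro e; apply h2; simpa using e.symm
  · intro e; apply h1; simpa using e.symm

theorem card_sblk {h g : G} (h0 : h ≠ 0) (h3 : h + h + h = 0) : (sblk h g).card = 3 := by
  unfold sblk
  rw [card_eq_three]
  refine ⟨_, _, _, ?_, ?_, ?_, rfl⟩
  · intro e; apply h0; simpa using e.symm
  · intro e
    apply h0
    have : g - h = g := e.symm
    rwa [sub_eq_self] at this
  · intro e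
    apply h0
    have e1 : h = -h := by
      have : g + h = g + (-h) := by rw [e, sub_eq_add_neg]
      exact add_left_cancel this
    have e2 : h + h = 0 := by
      nth_rewrite 2 [e1]; simp
    rw [e2, zero_add] at h3
    exact h3

theorem sys_card {k : ℕ} {x y : Fin k → G} {h : G} {c : Bool} (H : Good x y h c) :
    ∀ b ∈ sys x y h c, b.card = 3 := by
  intro b hb
  rw [mem_sys] at hb
  rcases hb with ⟨t, g, rfl⟩ | ⟨hc, g, rfl⟩
  · exact card_blk H t g
  · exact card_sblk (H.h3 hc).1 (H.h3 hc).2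

theorem sys_unique {k : ℕ} {x y : Fin k → G} {h : G} {c : Bool} (H : Good x y h c) (p q : G)
    (hpq : p ≠ q) : ∃! b : Finset G, b ∈ sys x y h c ∧ p ∈ b ∧ q ∈ b := by
  have hd : q - p ≠ 0 := sub_ne_zero.mpr (Ne.symm hpq)
  by_cases hs : c = true ∧ (q - p = h ∨ q - p = -h)
  · obtain ⟨hc, hs⟩ := hs
    obtain ⟨h0, h3⟩ := H.h3 hc
    refine ⟨sblk h p, ⟨mem_sys.mpr (Or.inr ⟨hc, p, rfl⟩), by simp [mem_sblk], ?_⟩, ?_⟩
    · rw [mem_sblk]
      rcases hs with hs | hs
      · right; left; rw [← hs]; abel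
      · right; right; rw [sub_eq_add_neg, ← hs]; abel
    · rintro b ⟨hb, hpb, hqb⟩
      rw [mem_sys] at hb
      rcases hb with ⟨t, g, rfl⟩ | ⟨-, g, rfl⟩
      · exfalso
        obtain ⟨j, s, h1, -⟩ := pair_of_mem hpb hqb hpq
        have := H.neh hc (t, j, s)
        rcases hs with hs | hs
        · exact this.1 (h1.symm.trans hs)
        · exact this.2 (h1.symm.trans hs)
      · exact sblk_eq h3 hpb
  · have hs' : c = true → q - p ≠ h ∧ q - p ≠ -h := by
      intro hc
      constructor
      · intro e; exact hs ⟨hc, Or.inl e⟩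
      · intro e; exact hs ⟨hc, Or.inr e⟩
    obtain ⟨i, hi⟩ := H.surj (q - p) hd hs'
    obtain ⟨m1, m2⟩ := mem_of_pair (x := x) (y := y) hi.symm
    refine ⟨_, ⟨mem_sys.mpr (Or.inl ⟨i.1, _, rfl⟩), m1, m2⟩, ?_⟩
    rintro b ⟨hb, hpb, hqb⟩
    rw [mem_sys] at hb
    rcases hb with ⟨t, g, rfl⟩ | ⟨hc, g, rfl⟩
    · obtain ⟨j, s, h1, h2⟩ := pair_of_mem hpb hqb hpq
      have : i = (t, j, s) := H.inj (hi.trans h1)
      subst this
      rw [h2]
    · exfalso
      have := sblk_diff (H.h3 hc).2 hpb hqb hpq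
      rcases this with e | e
      · exact (hs' hc).1 e
      · exact (hs' hc).2 e

theorem image_blk (x y g a : G) : (blk x y g).image (fun z => z + a) = blk x y (g + a) := by
  unfold blk
  simp only [image_insert, image_singleton]
  congr 1
  congr 1
  · abel
  · congr 1
    abel

theorem image_sblk (h g a : G) : (sblk h g).image (fun z => z + a) = sblk h (g + a) := by
  unfold sblk
  simp only [image_insert, image_singleton]
  congr 1
  congr 1
  · abel
  · congr 1
    abel

theorem sys_shift {k : ℕ} {x y : Fin k → G} {h : G} {c : Bool} (a : G) :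
    ∀ b ∈ sys x y h c, b.image (fun z => z + a) ∈ sys x y h c := by
  intro b hb
  rw [mem_sys] at hb ⊢
  rcases hb with ⟨t, g, rfl⟩ | ⟨hc, g, rfl⟩
  · exact Or.inl ⟨t, g + a, image_blk _ _ _ _⟩
  · exact Or.inr ⟨hc, g + a, image_sblk _ _ _⟩

/-- choice of orientation -/
def sx {k : ℕ} (x y : Fin k → G) (e : Fin k → Bool) (t : Fin k) : G := if e t then x t else y t
def sy {k : ℕ} (x y : Fin k → G) (e : Fin k → Bool) (t : Fin k) : G := if e t then y t else x t

/-- index permutation -/
def pm {k : ℕ} (e : Fin k → Bool) (i : Fin k × Fin 3 × Bool) : Fin k × Fin 3 × Bool :=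
  (i.1, if e i.1 then i.2.1 else (if i.2.1 = 0 then 1 else if i.2.1 = 1 then 0 else 2), i.2.2)

theorem pm_pm {k : ℕ} (e : Fin k → Bool) (i : Fin k × Fin 3 × Bool) : pm e (pm e i) = i := by
  obtain ⟨t, j, s⟩ := i
  unfold pm
  cases h : e t <;> fin_cases j <;> simp [h]

theorem Ds_pm {k : ℕ} (x y : Fin k → G) (e : Fin k → Bool) (i : Fin k × Fin 3 × Bool) :
    Ds (sx x y e) (sy x y e) i = Ds x y (pm e i) := by
  obtain ⟨t, j, s⟩ := i
  unfold pm Ds sx sy
  cases h : e t <;> fin_cases j <;> simp [h]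
  cases s <;> simp [add_comm]

theorem good_swap {k : ℕ} {x y : Fin k → G} {h : G} {c : Bool} (H : Good x y h c)
    (e : Fin k → Bool) : Good (sx x y e) (sy x y e) h c where
  inj := by
    intro i j hij
    rw [Ds_pm, Ds_pm] at hij
    have := H.inj hij
    rw [← pm_pm e i, this, pm_pm]
  ne0 := by intro i; rw [Ds_pm]; exact H.ne0 _
  neh := by intro hc i; rw [Ds_pm]; exact H.neh hc _
  surj := by
    intro d h0 h1
    obtain ⟨i, hi⟩ := H.surj d h0 h1
    refine ⟨pm e i, ?_⟩
    rw [Ds_pm, pm_pm, hi]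
  h3 := H.h3

theorem sys_inj {k : ℕ} {x y : Fin k → G} {h : G} {c : Bool} (H : Good x y h c) :
    Function.Injective (fun e : Fin k → Bool => sys (sx x y e) (sy x y e) h c) := by
  have key : ∀ e e' : Fin k → Bool, sys (sx x y e) (sy x y e) h c = sys (sx x y e') (sy x y e') h c →
      ∀ t, e t = true → e' t = false → False := by
    intro e e' he t h1 h2
    have h0 : x t ≠ 0 := by simpa [Ds] using H.ne0 (t, 0, true)
    have hy0 : y t ≠ 0 := by simpa [Ds] using H.ne0 (t, 1, true)
    have hxy0 : x t + y t ≠ 0 := by simpa [Ds] using H.ne0 (t, 2, true)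
    have hxy : x t ≠ y t := by
      intro hxy
      have := H.inj (a₁ := (t, 0, true)) (a₂ := (t, 1, true)) (by simpa [Ds] using hxy)
      simp at this
    have m1 : blk (x t) (y t) 0 ∈ sys (sx x y e') (sy x y e') h c := by
      rw [← he, mem_sys]
      left
      exact ⟨t, 0, by simp [sx, sy, h1]⟩
    have m2 : blk (y t) (x t) 0 ∈ sys (sx x y e') (sy x y e') h c := by
      rw [mem_sys]
      left
      exact ⟨t, 0, by simp [sx, sy, h2]⟩
    have hu := sys_unique (good_swap H e') 0 (x t + y t) (Ne.symm hxy0)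
    have := hu.unique ⟨m1, by simp [mem_blk], by simp [mem_blk]⟩
      ⟨m2, by simp [mem_blk], by simp [mem_blk, add_comm]⟩
    have hx : x t ∈ blk (y t) (x t) 0 := by
      rw [← this]; simp [mem_blk]
    simp [mem_blk, h0, hxy, hy0] at hx
  intro e e' he
  funext t
  by_contra hne
  cases h1 : e t <;> cases h2 : e' t <;> simp [h1, h2] at hne
  · exact key e' e he.symm t h2 h1
  · exact key e e' he t h1 h2

end Pool.Agent.HX84
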